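import Pool.Agent.W8.ST.Stm

set_option autoImplicit false

open scoped ContDiff

namespace Pool.Agent.W639.ST

open Pool.Agent.W8.ST

theorem pd_contDiff {n : ℕ} (i : Fin n) (u : V n → ℝ) (h : ContDiff ℝ ∞ u) :
    ContDiff ℝ ∞ (pd i u) := by
  have h1 : ContDiff ℝ ∞ (fderiv ℝ u) := h.fderiv_right (by norm_num)
  exact h1.clm_apply contDiff_const

theorem pd_comm {n : ℕ} (i j : Fin n) (u : V n → ℝ) (h : ContDiff ℝ ∞ u) :
    pd i (pd j u) = pd j (pd i u) := by
  have h1 : ContDiff ℝ ∞ (fderiv ℝ u) := h.fderiv_right (by norm_num)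
  have hd : Differentiable ℝ (fderiv ℝ u) := h1.differentiable (by simp)
  have key : ∀ (a b : Fin n) (x : V n),
      pd a (pd b u) x = fderiv ℝ (fderiv ℝ u) x (Pi.single a 1) (Pi.single b 1) := by
    intro a b x
    show fderiv ℝ (fun y => fderiv ℝ u y (Pi.single b 1)) x (Pi.single a 1) = _
    have h2 := ((hd x).hasFDerivAt.clm_apply
      (hasFDerivAt_const (Pi.single b 1 : V n) x)).fderiv
    rw [h2]
    simp
  funext x
  rw [key, key]
  have hs : IsSymmSndFDerivAt ℝ u x :=
    (h.contDiffAt (x := x)).isSymmSndFDerivAt (by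
      rw [minSmoothness_of_isRCLikeNormedField]
      exact WithTop.coe_le_coe.2 (le_top : (2 : ℕ∞) ≤ ⊤))
  exact hs _ _

theorem CommD_proof : CommD := by
  intro u h
  exact ⟨fun i => pd_contDiff i u h, fun i j => pd_comm i j u h⟩

end Pool.Agent.W639.ST
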